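import Pool.Agent.H8.AV3.Stmts3
import Pool.Agent.H91.AVS.Places

/-!
# Reduction of ternary cubic forms at a place with a residue map
-/

set_option autoImplicit false

namespace Pool.Agent.H41.AV3B

open Polynomial Matrix Pool.AV3 Pool.AVS.WUW

variable {K : Type} [Field K] {I : Set K} {ϖ : K} {k : Type} [Field k] {ρ : K → k}

theorem map_sum3 (h : Plc I ϖ ρ) {x y z : K} (hx : x ∈ I) (hy : y ∈ I) (hz : z ∈ I) :
    x + y + z ∈ I ∧ ρ (x + y + z) = ρ x + ρ y + ρ z := by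
  have h1 := h.add_mem x hx y hy
  exact ⟨h.add_mem _ h1 _ hz, by rw [h.map_add _ h1 _ hz, h.map_add _ hx _ hy]⟩

/-- The subring of the place. -/
def Sb (h : Plc I ϖ ρ) : Subring K where
  carrier := I
  zero_mem' := h.zero_mem
  one_mem' := h.one_mem
  add_mem' := fun {x y} hx hy => h.add_mem x hx y hy
  mul_mem' := fun {x y} hx hy => h.mul_mem x hx y hy
  neg_mem' := fun {x} hx => h.neg_mem x hx

/-- The residue map as a ring homomorphism. -/
def Rh (h : Plc I ϖ ρ) : Sb h →+* k where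
  toFun x := ρ x.1
  map_one' := h.map_one
  map_zero' := h.map_zero
  map_add' x y := h.map_add x.1 x.2 y.1 y.2
  map_mul' x y := h.map_mul x.1 x.2 y.1 y.2

/-- Evaluation commutes with ring homomorphisms. -/
theorem tev_map {R S : Type} [CommRing R] [CommRing S] (φ : R →+* S) (c : Fin 10 → R)
    (v : Fin 3 → R) : φ (tev c v) = tev (fun i => φ (c i)) (fun i => φ (v i)) := by
  simp only [tev, map_add, map_mul, map_pow]

theorem tder_map {R S : Type} [CommRing R] [CommRing S] (φ : R →+* S) (c : Fin 10 → R)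
    (v w : Fin 3 → R) : φ (tder c v w) =
      tder (fun i => φ (c i)) (fun i => φ (v i)) (fun i => φ (w i)) := by
  simp only [tder, map_add, map_mul, map_pow, map_ofNat]

theorem tev_red (h : Plc I ϖ ρ) {c : Fin 10 → K} {v : Fin 3 → K} (hc : ∀ i, c i ∈ I)
    (hv : ∀ i, v i ∈ I) : tev c v ∈ I ∧ ρ (tev c v) = tev (fun i => ρ (c i)) (fun i => ρ (v i)) := by
  let c' : Fin 10 → Sb h := fun i => ⟨c i, hc i⟩
  let v' : Fin 3 → Sb h := fun i => ⟨v i, hv i⟩
  have h1 : tev c v = ((tev c' v' : Sb h) : K) := (tev_map (Sb h).subtype c' v').symm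
  refine ⟨?_, ?_⟩
  · rw [h1]; exact (tev c' v').2
  · rw [h1]; exact tev_map (Rh h) c' v'

theorem tder_red (h : Plc I ϖ ρ) {c : Fin 10 → K} {v w : Fin 3 → K} (hc : ∀ i, c i ∈ I)
    (hv : ∀ i, v i ∈ I) (hw : ∀ i, w i ∈ I) : tder c v w ∈ I ∧ ρ (tder c v w) =
      tder (fun i => ρ (c i)) (fun i => ρ (v i)) (fun i => ρ (w i)) := by
  let c' : Fin 10 → Sb h := fun i => ⟨c i, hc i⟩
  let v' : Fin 3 → Sb h := fun i => ⟨v i, hv i⟩
  let w' : Fin 3 → Sb h := fun i => ⟨w i, hw i⟩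
  have h1 : tder c v w = ((tder c' v' w' : Sb h) : K) := (tder_map (Sb h).subtype c' v' w').symm
  refine ⟨?_, ?_⟩
  · rw [h1]; exact (tder c' v' w').2
  · rw [h1]; exact tder_map (Rh h) c' v' w'

/-- Good points reduce to good points. -/
theorem good_red (h : Plc I ϖ ρ) {c : Fin 10 → K} {v : Fin 3 → K} (hc : ∀ i, c i ∈ I)
    (hg : GdI I ϖ c v) : Good (fun i => ρ (c i)) (fun i => ρ (v i)) := by
  obtain ⟨hv, -, h1, ⟨w, hw, h2⟩, w', hw', h3, h4⟩ := hg
  obtain ⟨e1, e2⟩ := tev_red h hc hv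
  obtain ⟨f1, f2⟩ := tder_red h hc hv hw
  obtain ⟨g1, g2⟩ := tder_red h hc hv hw'
  obtain ⟨k1, k2⟩ := tev_red h hc hw'
  refine ⟨?_, ⟨fun i => ρ (w i), ?_⟩, fun i => ρ (w' i), ?_, ?_⟩
  · rw [← e2]; exact (h.ker _ e1).2 h1
  · rw [← f2]; exact fun h5 => h2 ((h.ker _ f1).1 h5)
  · rw [← g2]; exact (h.ker _ g1).2 h3
  · rw [← k2]; exact fun h5 => h4 ((h.ker _ k1).1 h5)

/-- Equality of reductions. -/
theorem red_eq (h : Plc I ϖ ρ) {z z' : Fin 3 → K} (hz : ∀ i, z i ∈ I) (hz' : ∀ i, z' i ∈ I) :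
    ((fun i => ρ (z i)) = fun i => ρ (z' i)) ↔ ∀ i, (z i - z' i) / ϖ ∈ I := by
  constructor
  · intro h1 i
    have h2 := congrFun h1 i
    rw [← h.ker _ (h.sub_mem (hz i) (hz' i)), h.map_sub (hz i) (hz' i), sub_eq_zero]
    exact h2
  · intro h1
    funext i
    have h2 := (h.ker _ (h.sub_mem (hz i) (hz' i))).2 (h1 i)
    rw [h.map_sub (hz i) (hz' i), sub_eq_zero] at h2
    exact h2

end Pool.Agent.H41.AV3B
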