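import Pool.Agent.H41.AV3B.RDG

/-!
# Row RDI of board av3b
-/

set_option autoImplicit false

namespace Pool.Agent.H41.AV3B

open Polynomial Matrix Pool.AV3 Pool.AVS Pool.AVS.WUW

theorem rdI_eq {F : Type} [Field F] (z : Fin 3 → RatFunc F) : rdI z = fun i => rI (z i) := by
  funext i
  show AdjoinRoot.mk X (C ((z i).num.coeff (z i).denom.natDegree)) =
    AdjoinRoot.of X ((z i).num.coeff (z i).denom.natDegree)
  rw [AdjoinRoot.mk_C]

theorem rdi_thm : RDIStmt := by
  intro F _
  have hpl := plcI (F := F)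
  refine ⟨?_, ?_⟩
  · intro z z' hz hz'
    rw [rdI_eq, rdI_eq]
    exact red_eq hpl hz hz'
  · intro n d c hc z hg
    have hkey : ∀ i, cI n d c i ∈ Iinf F ∧ rI (cI n d c i) = md X (cinf n d c) i := by
      intro i
      show algebraMap F[X] (RatFunc F) (c i) / (RatFunc.X : RatFunc F) ^ ee n d i ∈ Iinf F ∧
        rI (algebraMap F[X] (RatFunc F) (c i) / (RatFunc.X : RatFunc F) ^ ee n d i) =
          AdjoinRoot.mk X ((c i).reflect (ee n d i).toNat)
      by_cases h0 : c i = 0
      · rw [h0, map_zero, zero_div, reflect_zero, map_zero]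
        exact ⟨hpl.zero_mem, hpl.map_zero⟩
      · have h1 : ((c i).natDegree : ℤ) ≤ ee n d i := hc i h0
        obtain ⟨m, hm⟩ := Int.eq_ofNat_of_zero_le (le_trans (Int.natCast_nonneg _) h1)
        rw [hm] at h1 ⊢
        rw [zpow_natCast, Int.toNat_natCast]
        exact rI_div m (c i) (by exact_mod_cast h1)
    have h1 := good_red hpl (c := cI n d c) (fun i => (hkey i).1) hg
    have h2 : (fun i => rI (cI n d c i)) = md X (cinf n d c) := funext fun i => (hkey i).2
    rw [rdI_eq, ← h2]
    exact h1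

end Pool.Agent.H41.AV3B
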