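import Pool.Agent.H41.AV3B.RDG

/-!
# Row RDP of board av3b
-/

set_option autoImplicit false

namespace Pool.Agent.H41.AV3B

open Polynomial Matrix Pool.AV3 Pool.AVS Pool.AVS.WUW

theorem rdP_eq {F : Type} [Field F] (P : F[X]) [Fact (Irreducible P)]
    (z : Fin 3 → RatFunc F) : rdP P z = fun i => rP P (z i) := by
  funext i
  show AdjoinRoot.mk P (z i).num * Ring.inverse (AdjoinRoot.mk P (z i).denom) =
    AdjoinRoot.mk P (z i).num / AdjoinRoot.mk P (z i).denom
  rw [Ring.inverse_eq_inv', div_eq_mul_inv]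

theorem rdp_thm : RDPStmt := by
  intro F _ P hm hP
  have : Fact (Irreducible P) := ⟨hP⟩
  have hpl := plcP P
  have hpoly : ∀ p : F[X], algebraMap F[X] (RatFunc F) p ∈ IP P := by
    intro p h
    rw [RatFunc.denom_algebraMap] at h
    exact hP.not_isUnit (isUnit_of_dvd_one h)
  refine ⟨?_, ?_, ?_, ?_⟩
  · intro z z' hz hz'
    rw [rdP_eq, rdP_eq]
    exact red_eq hpl hz hz'
  · intro z
    rw [rdP_eq]
    funext i
    exact rP_poly P (z i)
  · intro z hz
    have h1 : ∀ i, ∃ p : F[X], AdjoinRoot.mk P p = rP P (z i) := fun i =>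
      AdjoinRoot.mk_surjective _
    choose z' hz' using h1
    have h2 : ∀ i, pv z' i ∈ IP P := fun i => hpoly (z' i)
    refine ⟨z', (red_eq hpl hz h2).1 ?_⟩
    funext i
    show rP P (z i) = rP P (algebraMap F[X] (RatFunc F) (z' i))
    rw [rP_poly, hz' i]
  · intro c z hg
    have h1 := good_red hpl (c := mp c) (fun i => hpoly (c i)) hg
    have h2 : (fun i => rP P (mp c i)) = md P c := by
      funext i
      exact rP_poly P (c i)
    rw [rdP_eq, ← h2]
    exact h1

end Pool.Agent.H41.AV3B
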